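import Pool.Agent.W475.BG.Stm

set_option autoImplicit false

/-!
# Differentiability and symmetries of the backward heat flow of an L-function
-/

namespace Pool.Agent.W962.BG

open Complex MeasureTheory Filter Topology
open Pool.Agent.W475.BG
open scoped ComplexConjugate

/-- the derivative is bounded on strips -/
theorem dbound {f : ℂ → ℂ} (hf : Differentiable ℂ f)
    (hb : ∀ K : ℝ, ∃ C : ℝ, ∀ s : ℂ, |s.re| ≤ K → ‖f s‖ ≤ C) (K : ℝ) :
    ∃ C : ℝ, ∀ s : ℂ, |s.re| ≤ K → ‖deriv f s‖ ≤ C := by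
  obtain ⟨C, hC⟩ := hb (K + 1)
  refine ⟨C / 1, fun s hs => ?_⟩
  refine Complex.norm_deriv_le_of_forall_mem_sphere_norm_le one_pos hf.diffContOnCl
    (fun w hw => hC w ?_)
  rw [mem_sphere_iff_norm] at hw
  have h1 : |(w - s).re| ≤ 1 := (Complex.abs_re_le_norm _).trans hw.le
  rw [Complex.sub_re] at h1
  have h2 := abs_add_le (w.re - s.re) s.re
  rw [sub_add_cancel] at h2
  linarith

theorem gint : Integrable (fun v : ℝ => Real.exp (-v ^ 2)) := by
  have := integrable_exp_neg_mul_sq (b := 1) one_pos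
  simpa using this

theorem re_arg (z : ℂ) (c v : ℝ) : (1 / 2 + z + I * ((c * v : ℝ) : ℂ)).re = 1 / 2 + z.re := by
  simp only [Complex.add_re, Complex.mul_re, Complex.I_re, Complex.I_im, Complex.ofReal_re,
    Complex.ofReal_im]
  norm_num

theorem diffI {f : ℂ → ℂ} (hf : Differentiable ℂ f)
    (hb : ∀ K : ℝ, ∃ C : ℝ, ∀ s : ℂ, |s.re| ≤ K → ‖f s‖ ≤ C) (c : ℝ) :
    Differentiable ℂ (fun z : ℂ => ∫ v : ℝ, ((Real.exp (-v ^ 2) : ℝ) : ℂ) *
      f (1 / 2 + z + I * ((c * v : ℝ) : ℂ))) := by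
  intro z0
  obtain ⟨C, hC⟩ := dbound hf hb (|z0.re| + 2)
  obtain ⟨C0, hC0⟩ := hb (|z0.re| + 2)
  have harg : ∀ z : ℂ, Continuous (fun v : ℝ => 1 / 2 + z + I * ((c * v : ℝ) : ℂ)) := by
    intro z
    fun_prop
  have hexp : Continuous (fun v : ℝ => ((Real.exp (-v ^ 2) : ℝ) : ℂ)) := by fun_prop
  have hdf : Continuous (deriv f) := (hf.contDiff (n := 1)).continuous_deriv le_rfl
  have hmeas : ∀ z : ℂ, AEStronglyMeasurable (fun v : ℝ => ((Real.exp (-v ^ 2) : ℝ) : ℂ) *
      f (1 / 2 + z + I * ((c * v : ℝ) : ℂ))) volume := fun z =>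
    (hexp.mul (hf.continuous.comp (harg z))).aestronglyMeasurable
  have hmeas' : AEStronglyMeasurable (fun v : ℝ => ((Real.exp (-v ^ 2) : ℝ) : ℂ) *
      deriv f (1 / 2 + z0 + I * ((c * v : ℝ) : ℂ))) volume :=
    (hexp.mul (hdf.comp (harg z0))).aestronglyMeasurable
  have hnorm : ∀ v : ℝ, ‖((Real.exp (-v ^ 2) : ℝ) : ℂ)‖ = Real.exp (-v ^ 2) := by
    intro v
    rw [Complex.norm_real, Real.norm_eq_abs, Real.abs_exp]
  have hre : ∀ z ∈ Metric.ball z0 1, ∀ v : ℝ,
      |(1 / 2 + z + I * ((c * v : ℝ) : ℂ)).re| ≤ |z0.re| + 2 := by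
    intro z hz v
    rw [re_arg]
    rw [Metric.mem_ball, dist_eq_norm] at hz
    have h1 : |(z - z0).re| ≤ 1 := (Complex.abs_re_le_norm _).trans hz.le
    rw [Complex.sub_re] at h1
    have h2 := abs_add_le (z.re - z0.re) z0.re
    rw [sub_add_cancel] at h2
    have h3 := abs_add_le (1 / 2) z.re
    have h4 : |(1 / 2 : ℝ)| = 1 / 2 := abs_of_pos (by norm_num)
    linarith
  have hint : Integrable (fun v : ℝ => ((Real.exp (-v ^ 2) : ℝ) : ℂ) *
      f (1 / 2 + z0 + I * ((c * v : ℝ) : ℂ))) := by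
    refine Integrable.mono' (gint.mul_const C0) (hmeas z0) (Eventually.of_forall fun v => ?_)
    rw [norm_mul, hnorm]
    exact mul_le_mul_of_nonneg_left (hC0 _ (hre z0 (Metric.mem_ball_self one_pos) v))
      (Real.exp_pos _).le
  refine (hasDerivAt_integral_of_dominated_loc_of_deriv_le (μ := volume)
    (F := fun (z : ℂ) (v : ℝ) => ((Real.exp (-v ^ 2) : ℝ) : ℂ) *
      f (1 / 2 + z + I * ((c * v : ℝ) : ℂ)))
    (F' := fun (z : ℂ) (v : ℝ) => ((Real.exp (-v ^ 2) : ℝ) : ℂ) *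
      deriv f (1 / 2 + z + I * ((c * v : ℝ) : ℂ)))
    (x₀ := z0) (s := Metric.ball z0 1) (bound := fun v => Real.exp (-v ^ 2) * C)
    (Metric.ball_mem_nhds z0 one_pos) (Eventually.of_forall hmeas) hint hmeas'
    (Eventually.of_forall fun v z hz => ?_) (gint.mul_const C)
    (Eventually.of_forall fun v z hz => ?_)).2.differentiableAt
  · rw [norm_mul, hnorm]
    exact mul_le_mul_of_nonneg_left (hC _ (hre z hz v)) (Real.exp_pos _).le
  · have h1 : HasDerivAt (fun z : ℂ => 1 / 2 + z + I * ((c * v : ℝ) : ℂ)) 1 z := by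
      have := ((hasDerivAt_id z).const_add (1 / 2 : ℂ)).add_const (I * ((c * v : ℝ) : ℂ))
      simpa using this
    have h2 := (hf (1 / 2 + z + I * ((c * v : ℝ) : ℂ))).hasDerivAt.comp z h1
    rw [mul_one] at h2
    exact h2.const_mul _

/-- SYM -/
theorem sym (D : Dat) (hD : Ok D) : S_SYM D := by
  intro κ _
  refine ⟨?_, fun z => ?_, fun z => ?_⟩
  · exact (diffI hD.diff hD.strip (2 * Real.sqrt κ)).const_mul _
  · have h : (∫ v : ℝ, ((Real.exp (-v ^ 2) : ℝ) : ℂ) *
        D.Lam (1 / 2 + -z + I * ((2 * Real.sqrt κ * v : ℝ) : ℂ))) =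
        D.w * conj (∫ v : ℝ, ((Real.exp (-v ^ 2) : ℝ) : ℂ) *
          D.Lam (1 / 2 + conj z + I * ((2 * Real.sqrt κ * v : ℝ) : ℂ))) := by
      rw [← integral_conj, ← integral_const_mul]
      refine integral_congr_ae (Eventually.of_forall fun v => ?_)
      show _ = _
      have h1 := hD.fe (1 / 2 + z - I * ((2 * Real.sqrt κ * v : ℝ) : ℂ))
      have e1 : (1 : ℂ) - (1 / 2 + z - I * ((2 * Real.sqrt κ * v : ℝ) : ℂ)) =
          1 / 2 + -z + I * ((2 * Real.sqrt κ * v : ℝ) : ℂ) := by ring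
      have e2 : conj (1 / 2 + z - I * ((2 * Real.sqrt κ * v : ℝ) : ℂ)) =
          1 / 2 + conj z + I * ((2 * Real.sqrt κ * v : ℝ) : ℂ) := by
        simp only [map_sub, map_add, map_mul, Complex.conj_I, Complex.conj_ofReal, map_div₀,
          map_one, map_ofNat]
        ring
      rw [e1, e2] at h1
      simp only [h1, map_mul, Complex.conj_ofReal]
      ring
    unfold XK
    rw [h, map_mul, Complex.conj_ofReal]
    ring
  · unfold XK cj
    simp only
    rw [map_mul, Complex.conj_ofReal, ← integral_conj]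
    congr 1
    refine (integral_neg_eq_self (fun v : ℝ => ((Real.exp (-v ^ 2) : ℝ) : ℂ) *
      conj (D.Lam (conj (1 / 2 + z + I * ((2 * Real.sqrt κ * v : ℝ) : ℂ))))) volume).symm.trans ?_
    refine integral_congr_ae (Eventually.of_forall fun v => ?_)
    show _ = _
    have e2 : conj (1 / 2 + z + I * ((2 * Real.sqrt κ * -v : ℝ) : ℂ)) =
        1 / 2 + conj z + I * ((2 * Real.sqrt κ * v : ℝ) : ℂ) := by
      simp only [map_add, map_mul, Complex.conj_I, Complex.conj_ofReal, map_div₀, map_one,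
        map_ofNat]
      push_cast
      ring
    have e3 : (-(-v) ^ 2 : ℝ) = -v ^ 2 := by ring
    simp only [e2, e3, map_mul, Complex.conj_ofReal]

end Pool.Agent.W962.BG
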